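import Mathlib
import Pool.Agent.Lib.MP_72f993_co.Defs
import Pool.Agent.Lib.MP_72f993_co.Sudoku

/-!
For every `m ≥ 2`, the number `τ(m)` of MP_72f993_co (the largest size of an affine collection of
sudoku partitions for a division sudoku of rank `m`) is at least `q + 1`, where `q` is the smallest
prime power component of `m`; and `τ(m) = N(m) + 2` whenever the number `N(m)` of mutually
orthogonal latin squares of order `m` is less than `q`, that is, when MacNeish's bound is sharp.
-/

set_option autoImplicit false

namespace Pool.Agent.Results.MP_72f993_co.MacNeish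

open Pool.Agent.MP_72f993_co

theorem result :
    ∀ m : ℕ, 2 ≤ m → ∀ q : ℕ, (∀ p : ℕ, p.Prime → p ∣ m → q ≤ p ^ m.factorization p) →
      q + 1 ≤ tau m ∧ (molsNumber m < q → tau m = molsNumber m + 2) := by
  intro m hm q hq
  have h3 : q + 1 ≤ tau m := le_tau_of_good hm (by omega) (good_macNeish m (by omega) q hq)
  refine ⟨h3, fun h => ?_⟩
  have h4 := tau_le hm
  omega

end Pool.Agent.Results.MP_72f993_co.MacNeish
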