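import Mathlib
import Pool.Agent.Lib.MP_72f993_co.Defs
import Pool.Agent.Lib.MP_72f993_co.Sudoku

/-!
The number `τ(m)` of MP_72f993_co (the largest size of an affine collection of sudoku partitions
for a division sudoku of rank `m`) satisfies `min (τ m) (τ n) ≤ τ (m * n)` for all `m, n ≥ 2`.
-/

set_option autoImplicit false

namespace Pool.Agent.Results.MP_72f993_co.Product

open Pool.Agent.MP_72f993_co

theorem result : ∀ m n : ℕ, 2 ≤ m → 2 ≤ n → min (tau m) (tau n) ≤ tau (m * n) := by
  have h1 : ∀ m : ℕ, 2 ≤ m → 1 ≤ tau m := fun m hm =>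
    le_tau_of_good hm le_rfl (good_macNeish m (by omega) 0 (by simp))
  intro m n hm hn
  have hm1 := h1 m hm
  have hn1 := h1 n hn
  apply le_tau_of_good (by nlinarith) (by omega)
  exact ((good_tau hm).mono (min_le_left _ _)).prod ((good_tau hn).mono (min_le_right _ _))

end Pool.Agent.Results.MP_72f993_co.Product
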