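import Mathlib
import Pool.Agent.Lib.MP_72f993_co.Defs
import Pool.Agent.Lib.MP_72f993_co.Sudoku
import Pool.Agent.Lib.MP_72f993_co.Tarry
import Pool.Agent.Lib.MP_72f993_co.Six

/-!
The value at rank six of the number `τ` of MP_72f993_co: `τ(6) = 3 = N(6) + 2`.
-/

set_option autoImplicit false

namespace Pool.Agent.Results.MP_72f993_co.TauSix

open Pool.Agent.MP_72f993_co

theorem result : tau 6 = 3 ∧ tau 6 = molsNumber 6 + 2 := tau_six

end Pool.Agent.Results.MP_72f993_co.TauSix
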